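import Pool.Agent.TH402.FC.Chain

/-!
# Sequences of blocks of a list, and iterated fibres of positive upper Banach density
-/

set_option autoImplicit false
open Filter Topology Finset

namespace Pool.Agent.TH402.FC

open Pool.Agent.W27.FB

/-- iterated fibres: `P D (j + 1) s` holds if `P D j (x :: s)` holds for a set of `x` which is not null -/
def P (D : List ℤ → Prop) : ℕ → List ℤ → Prop
  | 0, s => D s
  | j + 1, s => ¬ Null {x : ℤ | P D j (x :: s)}

/-- the sequences of gaps of the subsets of the set of partial sums, with the first element -/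
def A : List ℤ → List (ℤ × List ℤ)
  | [] => [(0, [])]
  | x :: l => (0, []) :: ((A l).map (fun c => (0, (x + c.1) :: c.2)) ++
      (A l).map (fun c => (x + c.1, c.2)))

/-- the partial sums -/
def pos : List ℤ → List ℤ
  | [] => [0]
  | x :: l => 0 :: (pos l).map (fun y => x + y)

/-- the differences of consecutive elements -/
def gaps : List ℤ → List ℤ
  | a :: b :: t => (b - a) :: gaps (b :: t)
  | _ => []

theorem gaps_map (x : ℤ) : ∀ t : List ℤ, gaps (t.map (fun y => x + y)) = gaps t
  | [] => rfl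
  | [_] => rfl
  | a :: b :: t => by
    have h := gaps_map x (b :: t)
    simp only [List.map_cons] at h ⊢
    rw [gaps, gaps, h]
    congr 1
    ring

theorem mem_A (l : List ℤ) : ∀ (b : ℤ) (t : List ℤ), List.Sublist (b :: t) (pos l) →
    (b, gaps (b :: t)) ∈ A l := by
  induction l with
  | nil =>
    intro b t h
    have h1 := List.sublist_singleton.1 h
    rcases h1 with h1 | h1
    · simp at h1
    · rw [List.cons.injEq] at h1
      obtain ⟨rfl, rfl⟩ := h1
      simp [A, gaps]
  | cons x l ih =>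
    intro b t h
    rw [pos] at h
    rw [A]
    rcases List.sublist_cons_iff.1 h with h1 | ⟨r, hr, h1⟩
    · obtain ⟨s, hs, hs2⟩ := List.sublist_map_iff.1 h1
      cases s with
      | nil => simp at hs2
      | cons b' t' =>
        have h3 := ih b' t' hs
        rw [List.map_cons, List.cons.injEq] at hs2
        obtain ⟨rfl, rfl⟩ := hs2
        have h4 := gaps_map x (b' :: t')
        rw [List.map_cons] at h4
        rw [h4]
        apply List.mem_cons_of_mem
        apply List.mem_append_right
        exact List.mem_map.2 ⟨_, h3, rfl⟩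
    · rw [List.cons.injEq] at hr
      obtain ⟨rfl, rfl⟩ := hr
      obtain ⟨s, hs, rfl⟩ := List.sublist_map_iff.1 h1
      cases s with
      | nil => simp [gaps]
      | cons b' t' =>
        have h3 := ih b' t' hs
        have h4 := gaps_map x (b' :: t')
        rw [List.map_cons] at h4 ⊢
        rw [gaps, h4, sub_zero]
        apply List.mem_cons_of_mem
        apply List.mem_append_left
        exact List.mem_map.2 ⟨_, h3, rfl⟩

theorem A_prefix (l : List ℤ) : ∀ c ∈ A l, ∀ p : List ℤ, p <+: c.2 →
    ∃ p' : List ℤ, p' <+: l ∧ c.1 + p.sum = p'.sum := by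
  induction l with
  | nil =>
    intro c hc p hp
    simp only [A, List.mem_singleton] at hc
    subst hc
    rw [List.prefix_nil] at hp
    subst hp
    exact ⟨[], List.nil_prefix, by simp⟩
  | cons x l ih =>
    intro c hc p hp
    rw [A, List.mem_cons, List.mem_append, List.mem_map, List.mem_map] at hc
    rcases hc with rfl | ⟨c', hc', rfl⟩ | ⟨c', hc', rfl⟩
    · rw [List.prefix_nil] at hp
      subst hp
      exact ⟨[], List.nil_prefix, by simp⟩
    · rcases List.prefix_cons_iff.1 hp with rfl | ⟨p₁, rfl, hp₁⟩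
      · exact ⟨[], List.nil_prefix, by simp⟩
      · obtain ⟨p', hp', h⟩ := ih c' hc' p₁ hp₁
        refine ⟨x :: p', by simpa using hp', ?_⟩
        rw [List.sum_cons, List.sum_cons, ← h]
        ring
    · obtain ⟨p', hp', h⟩ := ih c' hc' p hp
      refine ⟨x :: p', by simpa using hp', ?_⟩
      rw [List.sum_cons, ← h]
      ring

theorem A_good {E : Set ℤ} (l : List ℤ) : Good E l → ∀ c ∈ A l, Good E c.2 := by
  induction l with
  | nil =>
    intro _ c hc
    simp only [A, List.mem_singleton] at hc
    subst hc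
    trivial
  | cons x l ih =>
    intro h c hc
    obtain ⟨h1, h2⟩ := h
    rw [A, List.mem_cons, List.mem_append, List.mem_map, List.mem_map] at hc
    rcases hc with rfl | ⟨c', hc', rfl⟩ | ⟨c', hc', rfl⟩
    · trivial
    · refine ⟨fun p hp => ?_, ih h2 c' hc'⟩
      obtain ⟨p', hp', h3⟩ := A_prefix l c' hc' p hp
      have := h1 p' hp'
      rw [← h3] at this
      rwa [add_assoc]
    · exact ih h2 c' hc'

theorem null_shift {S : Set ℤ} (h : Null S) (c : ℤ) : Null {x : ℤ | x + c ∈ S} := by
  intro ε hε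
  obtain ⟨L0, hL⟩ := h ε hε
  refine ⟨L0, fun L hL' u => ?_⟩
  have h1 := hL L hL' (u + c)
  refine le_trans (le_of_eq ?_) h1
  congr 2
  ext n
  simp only [Set.mem_ofPred_eq]
  rw [show u + (n : ℤ) + c = u + c + (n : ℤ) by ring]

/-- the null sets which have to be avoided -/
def F (D : List ℤ → Prop) (m : ℕ) (l : List ℤ) : Set ℤ :=
  {x | ∃ c ∈ A l, c.2 ≠ [] ∧ c.2.length < m ∧ ¬ P D (m - c.2.length) c.2 ∧
    P D (m - c.2.length - 1) ((x + c.1) :: c.2)}

theorem F_null (D : List ℤ → Prop) (m : ℕ) (l : List ℤ) : Null (F D m l) := by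
  obtain ⟨N, hN, hs⟩ := union_null Pool.Agent.W505.FN.nul (A l) (fun c =>
    {x : ℤ | c.2 ≠ [] ∧ c.2.length < m ∧ ¬ P D (m - c.2.length) c.2 ∧
      P D (m - c.2.length - 1) ((x + c.1) :: c.2)}) (by
    intro c _
    by_cases h : c.2 ≠ [] ∧ c.2.length < m ∧ ¬ P D (m - c.2.length) c.2
    · obtain ⟨h1, h2, h3⟩ := h
      have e : m - c.2.length = (m - c.2.length - 1) + 1 := by omega
      rw [e, P, not_not] at h3
      have h4 := null_shift h3 c.1
      refine Pool.Agent.W505.FN.nul.2.1 _ _ ?_ h4
      rintro x ⟨_, _, _, h5⟩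
      exact h5
    · refine Pool.Agent.W505.FN.nul.2.1 _ _ ?_ Pool.Agent.W505.FN.nul.2.2.2.1
      rintro x ⟨h1, h2, h3, _⟩
      exact (h ⟨h1, h2, h3⟩).elim)
  refine Pool.Agent.W505.FN.nul.2.1 _ _ ?_ hN
  rintro x ⟨c, hc, h⟩
  exact hs c hc h

theorem blocks_bad {D : List ℤ → Prop} {m : ℕ} (hm : 1 ≤ m) {E : Set ℤ}
    (hE : ∀ y ∈ E, ¬ P D (m - 1) [y]) (l : List ℤ) :
    Good E l → Av (F D m) l → ∀ c ∈ A l, c.2 ≠ [] → c.2.length ≤ m →
      ¬ P D (m - c.2.length) c.2 := by
  induction l with
  | nil =>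
    intro _ _ c hc h
    simp only [A, List.mem_singleton] at hc
    subst hc
    simp at h
  | cons x l ih =>
    intro hg ha c hc h1 h2
    obtain ⟨hg1, hg2⟩ := hg
    obtain ⟨ha1, ha2⟩ := ha
    rw [A, List.mem_cons, List.mem_append, List.mem_map, List.mem_map] at hc
    rcases hc with rfl | ⟨c', hc', rfl⟩ | ⟨c', hc', rfl⟩
    · simp at h1
    · by_cases hc2 : c'.2 = []
      · obtain ⟨p', hp', h3⟩ := A_prefix l c' hc' [] List.nil_prefix
        rw [List.sum_nil, add_zero] at h3
        have h4 := hE _ (hg1 p' hp')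
        rw [← h3] at h4
        simpa [hc2] using h4
      · simp only [List.length_cons] at h2 ⊢
        have h3 := ih hg2 ha2 c' hc' hc2 (by omega)
        intro h4
        apply ha1
        refine ⟨c', hc', hc2, by omega, h3, ?_⟩
        rw [Nat.sub_sub]
        exact h4
    · exact ih hg2 ha2 c' hc' h1 h2

end Pool.Agent.TH402.FC
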