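import Pool.Agent.TH402.FB.Main

/-!
# The chain argument of project FB with prescribed null sets avoided

A variant of `Pool.Agent.W27.FB.chain`: every new element is chosen outside a null set which
depends on the elements chosen before.
-/

set_option autoImplicit false
open Filter Topology Finset
open scoped BoundedContinuousFunction

namespace Pool.Agent.TH402.FC

open Pool.Agent.W634.BQ Pool.Agent.W505.BQ Pool.Agent.W27.FB

/-- every element of the list is outside the set belonging to the elements to its right -/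
def Av (F : List ℤ → Set ℤ) : List ℤ → Prop
  | [] => True
  | x :: l => x ∉ F l ∧ Av F l

/-- the induction -/
theorem chainF (F : List ℤ → Set ℤ) (hF : ∀ l, Null (F l)) (hnul : S_nul) (hmean : S_mean) (htrg : S_trg) (hbohr : S_bohr) (happr : S_appr)
    (E : Set ℤ) (hE : ∀ (T : Finset Circle) (ρ : ℝ), 0 < ρ → ¬ Null (E ∩ Bo T ρ)) (k : ℕ) :
    ∀ ctx : List (Con × (ℤ →ᵇ ℝ) × ℕ), (∀ s ∈ ctx, Val s.1 s.2.1 (s.2.2 + k)) →
      ∃ l : List ℤ, l.length = k ∧ (Good E l ∧ Av F l) ∧ ∀ s ∈ ctx, Val s.1 (upd s.1.S l s.2.1) s.2.2 := by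
  induction k with
  | zero =>
    intro ctx h
    exact ⟨[], rfl, ⟨trivial, trivial⟩, fun s hs => h s hs⟩
  | succ k ih =>
    intro ctx h
    -- the Bohr set
    obtain ⟨T, ρ, hρ, hB⟩ := inter_bohr ctx
      (fun s a => ∀ n, |(s.1.P ^ (s.2.2 + 1)) (n + a) - (s.1.P ^ (s.2.2 + 1)) n| ≤ s.1.ε) (by
        intro s _
        obtain ⟨T, ρ, hρ, h1⟩ := hbohr _ (trig_pow htrg s.1.P s.1.hP (s.2.2 + 1)) s.1.ε s.1.hε
        refine ⟨T, ρ, hρ, fun a ha n => ?_⟩
        have h2 := h1 a ha n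
        rw [co_apply, co_apply, ← Complex.ofReal_sub, Complex.norm_real, Real.norm_eq_abs] at h2
        exact h2)
    -- the new mean
    obtain ⟨m, hm, hext, hpos⟩ := hmean (E ∩ Bo T ρ) (hE T ρ hρ)
    obtain ⟨δ, hδ⟩ : ∃ δ, δ = m (ind (E ∩ Bo T ρ)) := ⟨_, rfl⟩
    rw [← hδ] at hpos
    obtain ⟨ε, hε, hε1, hε2⟩ : ∃ ε : ℝ, 0 < ε ∧ ε ≤ δ / 2 ∧
        ε * (2 * k + 1) < (δ / 2) ^ (k + 1) := by
      have h1 : 0 < (δ / 2) ^ (k + 1) := by positivity
      refine ⟨min (δ / 2) ((δ / 2) ^ (k + 1) / (2 * (2 * k + 1))), by positivity,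
        min_le_left _ _, ?_⟩
      have h2 : (0 : ℝ) < 2 * k + 1 := by positivity
      calc _ ≤ ((δ / 2) ^ (k + 1) / (2 * (2 * k + 1))) * (2 * k + 1) :=
            mul_le_mul_of_nonneg_right (min_le_right _ _) h2.le
        _ = (δ / 2) ^ (k + 1) / 2 := by field_simp
        _ < _ := by linarith
    obtain ⟨P, hP, h01, happ⟩ := happr m hm hext (E ∩ Bo T ρ) ε hε
    let c : Con := ⟨m, E ∩ Bo T ρ, P, ε, hm, hε, hP, h01, happ⟩
    have hVc : Val c (ind c.S) k := val_new hnul htrg c k δ hδ hε1 hε2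
    obtain ⟨l, hl, ⟨hgood, hav⟩, hctx⟩ := ih ((c, ind c.S, 0) ::
      ctx.map fun s => (s.1, s.2.1, s.2.2 + 1)) (by
        intro s hs
        rcases List.mem_cons.1 hs with rfl | h1
        · change Val c (ind c.S) (0 + k)
          rw [zero_add]
          exact hVc
        · obtain ⟨t, ht, rfl⟩ := List.mem_map.1 h1
          have h2 := h t ht
          have h3 : t.2.2 + (k + 1) = t.2.2 + 1 + k := by ring
          rw [h3] at h2
          exact h2)
    have hnew : Val c (upd c.S l (ind c.S)) 0 := hctx (c, ind c.S, 0) List.mem_cons_self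
    have hold : ∀ s ∈ ctx, Val s.1 (upd s.1.S l s.2.1) (s.2.2 + 1) := fun s hs =>
      hctx (s.1, s.2.1, s.2.2 + 1)
        (List.mem_cons_of_mem _ (List.mem_map.2 ⟨s, hs, rfl⟩))
    -- the null set
    obtain ⟨N₀, hN₀, hNs₀⟩ := union_null hnul ctx
      (fun s => {a : ℤ | s.1.ε <
        |s.1.m (s.1.P ^ s.2.2 * (ind s.1.S - s.1.P) * sh a (upd s.1.S l s.2.1))|}) (by
        intro s hs
        refine s.1.happ _ (trig_pow htrg s.1.P s.1.hP _) (pow_abs s.1 _) _ fun n => ?_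
        have h1 := (hold s hs).1 n
        rw [abs_of_nonneg h1.1]
        exact h1.2)
    obtain ⟨N, hN, hNs, hNF⟩ : ∃ N : Set ℤ, Null N ∧ (∀ s ∈ ctx, {a : ℤ | s.1.ε <
        |s.1.m (s.1.P ^ s.2.2 * (ind s.1.S - s.1.P) * sh a (upd s.1.S l s.2.1))|} ⊆ N) ∧ F l ⊆ N :=
      ⟨N₀ ∪ F l, hnul.2.2.1 _ _ hN₀ (hF l), fun s hs => (hNs₀ s hs).trans Set.subset_union_left,
        Set.subset_union_right⟩
    obtain ⟨x, hxN, hx⟩ : ∃ x, x ∉ N ∧ upd c.S l (ind c.S) x ≠ 0 := by
      by_contra hcon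
      push Not at hcon
      have h1 : c.m (upd c.S l (ind c.S)) ≤ c.m (ind N) := by
        refine m_mono c.hm fun n => ?_
        by_cases hn : n ∈ N
        · rw [ind_mem hn]
          exact (hnew.1 n).2
        · rw [ind_notMem hn]
          exact (hcon n hn).le
      have h2 := hnul.1 c.m c.hm N hN
      have h3 := hnew.2
      rw [pow_zero, one_mul] at h3
      rw [h2] at h1
      simp only [Nat.cast_zero, mul_zero] at h3
      linarith
    have hpre := upd_ne c.S l x hx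
    refine ⟨x :: l, by rw [List.length_cons, hl],
      ⟨⟨fun p hp => (hpre p hp).1, hgood⟩, ⟨fun h => hxN (hNF h), hav⟩⟩, ?_⟩
    intro s hs
    rw [upd_cons]
    have hxS : x ∈ Bo T ρ := by
      have h1 := hpre [] List.nil_prefix
      rw [List.sum_nil, add_zero] at h1
      exact h1.2
    refine step s.1 _ s.2.2 x (hold s hs) ?_ (hB x hxS s hs)
    have h1 : x ∉ {a : ℤ | s.1.ε <
        |s.1.m (s.1.P ^ s.2.2 * (ind s.1.S - s.1.P) * sh a (upd s.1.S l s.2.1))|} :=
      fun h => hxN (hNs s hs h)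
    rw [Set.mem_ofPred_eq, not_lt] at h1
    exact h1

/-- long lists with all consecutive sums in `E` and null sets avoided -/
theorem mainF (E : Set ℤ) (hE : ∀ (T : Finset Circle) (ρ : ℝ), 0 < ρ → ¬ Null (E ∩ Bo T ρ))
    (F : List ℤ → Set ℤ) (hF : ∀ l, Null (F l)) (k : ℕ) :
    ∃ l : List ℤ, l.length = k ∧ Good E l ∧ Av F l := by
  obtain ⟨l, h1, h2, _⟩ := chainF F hF Pool.Agent.W505.FN.nul Pool.Agent.TH402.FB.s_mean
    Pool.Agent.W975.FN.trg Pool.Agent.W352.FN.bohr Pool.Agent.TH402.FB.s_appr E hE k [] (by simp)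
  exact ⟨l, h1, h2⟩

end Pool.Agent.TH402.FC
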