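import Mathlib

/-!
# Definitions: patterns of consecutive primes and iterated fibres
-/

set_option autoImplicit false
open Filter

namespace Pool.Agent.TH402.FC

/-- The primes from `n` to `n + s.sum` are exactly the numbers `n + p.sum`, `p` an initial segment
of the list `s`. So these are `s.length + 1` consecutive primes (if the terms of `s` are positive),
and `s` is the list of the gaps between them. -/
def Run (s : List ℕ) (n : ℕ) : Prop :=
  ∀ y : ℕ, y ≤ s.sum → ((n + y).Prime ↔ ∃ p : List ℕ, p <+: s ∧ y = p.sum)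

/-- For every `η > 0` there are arbitrarily large `x` such that for at least `x ^ (1 - η)` of the
`n ≤ x` there are consecutive primes with the gaps `s` which begin with `n` and are all
`≡ a (mod q)`. -/
def Pat (q a : ℕ) (s : List ℕ) : Prop := ∀ η : ℝ, 0 < η → ∃ᶠ x : ℝ in atTop,
  x ^ (1 - η) ≤ ({n : ℕ | (n : ℝ) ≤ x ∧ (∀ p : List ℕ, p <+: s → n + p.sum ≡ a [MOD q]) ∧
    Run s n}.ncard : ℝ)

/-- All sums of consecutive terms of the list are in `G`. -/
def Blocks (G : Set ℕ) (s : List ℕ) : Prop := ∀ p t r : List ℕ, s = p ++ t ++ r → t ≠ [] → t.sum ∈ G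

/-- `X` has positive upper Banach density. -/
def UpperPos (X : Set ℕ) : Prop := ∃ δ : ℝ, 0 < δ ∧ ∀ L₀ : ℕ, ∃ L ≥ L₀, ∃ u : ℕ,
  δ * L ≤ ({d : ℕ | u < d ∧ d ≤ u + L ∧ d ∈ X}.ncard : ℝ)

/-- Iterated fibres: `Rich D 0 s` is `D s`, and `Rich D (j + 1) s` holds if `Rich D j (d :: s)` holds
for a set of `d` of positive upper Banach density. -/
def Rich (D : List ℕ → Prop) : ℕ → List ℕ → Prop
  | 0, s => D s
  | j + 1, s => UpperPos {d : ℕ | Rich D j (d :: s)}

end Pool.Agent.TH402.FC
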