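import Pool.Agent.TH402.FC.Nt
import Pool.Agent.TH402.FB.Syn

/-!
# Iterated fibres of the set of patterns of consecutive primes
-/

set_option autoImplicit false
open Filter Topology Finset

namespace Pool.Agent.TH402.FC

open Pool.Agent.W27.FB Pool.Agent.TH779.Shat

/-- from integers and points of the circle to natural numbers and real numbers -/
theorem transfer {N : ℕ} (hN0 : 0 < N) {X : Set ℤ} {T : Finset Circle} {ρ : ℝ}
    (hρ : 0 < ρ) (hnull : Null (X ∩ Bo T ρ)) :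
    ∃ (Θ : Finset ℝ) (ρ' : ℝ), 0 < ρ' ∧ ∀ ε : ℝ, 0 < ε → ∃ L₀ : ℕ, ∀ L : ℕ, L₀ ≤ L → ∀ u : ℕ,
      ({d : ℕ | u < d ∧ d ≤ u + L ∧ (∀ θ ∈ Θ, |(d : ℝ) * θ - round ((d : ℝ) * θ)| < ρ') ∧
        ∀ k : ℕ, 0 < k → d = N * k → (k : ℤ) ∈ X}.ncard : ℝ) ≤ ε * L := by
  classical
  obtain ⟨Θ, ρ', hρ', hconv⟩ := Pool.Agent.TH402.FB.conv T ρ hρ
  have hNR : (0 : ℝ) < N := by exact_mod_cast hN0
  refine ⟨insert (1 / (N : ℝ)) (Θ.image fun θ : ℝ => θ / (N : ℝ)), min ρ' (1 / N), by positivity, ?_⟩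
  intro ε hε
  obtain ⟨L₀, hL₀⟩ := hnull (ε / 3) (by positivity)
  refine ⟨max L₀ 1, fun L hL u => ?_⟩
  have hL1 : 1 ≤ L := (le_max_right _ _).trans hL
  have hLL : L₀ ≤ L := (le_max_left _ _).trans hL
  have h := hL₀ (L + 2) (by omega) ((u / N : ℕ) : ℤ)
  have hdvd : ∀ d : ℕ, (∀ θ ∈ insert (1 / (N : ℝ)) (Θ.image fun θ : ℝ => θ / (N : ℝ)),
      |(d : ℝ) * θ - round ((d : ℝ) * θ)| < min ρ' (1 / N)) → N ∣ d := by
    intro d hd
    have h1 := (hd _ (mem_insert_self _ _)).trans_le (min_le_right _ _)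
    set w : ℤ := round ((d : ℝ) * (1 / N)) with hw
    have h2 : |(d : ℝ) - N * w| < 1 := by
      have e : (d : ℝ) - N * w = N * ((d : ℝ) * (1 / N) - w) := by
        field_simp
      rw [e, abs_mul, abs_of_pos hNR]
      rw [lt_div_iff₀ hNR] at h1
      linarith
    have h3 : |(d : ℤ) - N * w| < 1 := by
      have : |(((d : ℤ) - N * w : ℤ) : ℝ)| < 1 := by push_cast; exact h2
      exact_mod_cast this
    have h4 : (d : ℤ) = N * w := by
      have := Int.abs_lt_one_iff.1 h3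
      linarith
    exact_mod_cast (Dvd.intro w h4.symm : (N : ℤ) ∣ d)
  refine le_trans ?_ (h.trans ?_)
  · rw [Nat.cast_le]
    refine Set.ncard_le_ncard_of_injOn (fun d => d / N - u / N) ?_ ?_
      ((Set.finite_lt_nat (L + 2)).subset fun n hn => hn.1)
    · rintro d ⟨h1, h2, h3, h4⟩
      have h5 := hdvd d h3
      obtain ⟨k, hk⟩ := h5
      have hk' : d / N = k := by rw [hk]; exact Nat.mul_div_cancel_left k hN0
      have hle : u / N ≤ d / N := Nat.div_le_div_right h1.le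
      have hle2 : d / N ≤ u / N + L + 1 := by
        calc d / N ≤ (u + L) / N := Nat.div_le_div_right h2
          _ ≤ (u + N * L) / N := Nat.div_le_div_right (by nlinarith)
          _ = u / N + L := Nat.add_mul_div_left _ _ hN0
          _ ≤ u / N + L + 1 := Nat.le_succ _
      have hcast : (((u / N : ℕ) : ℤ) + ((d / N - u / N : ℕ) : ℤ)) = (k : ℤ) := by
        rw [← hk']
        omega
      refine ⟨by show d / N - u / N < L + 2; omega, ?_⟩
      show ((u / N : ℕ) : ℤ) + ((d / N - u / N : ℕ) : ℤ) ∈ _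
      rw [hcast]
      refine ⟨?_, ?_⟩
      · have hk0 : 0 < k := by
          rcases Nat.eq_zero_or_pos k with h0 | h0
          · rw [h0, mul_zero] at hk
            omega
          · exact h0
        exact h4 k hk0 hk
      · show ∀ θ ∈ T, ‖((θ ^ (k : ℤ) : Circle) : ℂ) - 1‖ < ρ
        refine hconv k fun θ hθ => ?_
        have h6 := (h3 _ (mem_insert_of_mem (mem_image_of_mem (fun θ : ℝ => θ / (N : ℝ)) hθ))).trans_le
          (min_le_left _ _)
        have e : (d : ℝ) * (θ / N) = (k : ℝ) * θ := by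
          rw [hk]
          push_cast
          field_simp
        rw [e] at h6
        exact h6
    · intro d hd d' hd' heq
      obtain ⟨k, hk⟩ := hdvd d hd.2.2.1
      obtain ⟨k', hk'⟩ := hdvd d' hd'.2.2.1
      have e1 : d / N = k := by rw [hk]; exact Nat.mul_div_cancel_left k hN0
      have e2 : d' / N = k' := by rw [hk']; exact Nat.mul_div_cancel_left k' hN0
      have hle : u / N ≤ d / N := Nat.div_le_div_right hd.1.le
      have hle' : u / N ≤ d' / N := Nat.div_le_div_right hd'.1.le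
      have heq' : d / N - u / N = d' / N - u / N := heq
      have : k = k' := by omega
      rw [hk, hk', this]
  · push_cast
    have hL1' : (1 : ℝ) ≤ L := by exact_mod_cast hL1
    nlinarith


theorem P_pos {D : List ℤ → Prop} (hD : ∀ s, D s → ∀ x ∈ s, 0 < x) (j : ℕ) :
    ∀ s, P D j s → ∀ x ∈ s, 0 < x := by
  induction j with
  | zero => intro s h; exact hD s h
  | succ j ih =>
    intro s h
    rw [P] at h
    obtain ⟨x, hx⟩ : ∃ x, P D j (x :: s) := by
      by_contra hcon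
      push Not at hcon
      apply h
      have e : {x : ℤ | P D j (x :: s)} = ∅ := by
        ext x
        simpa using hcon x
      rw [e]
      exact Pool.Agent.W505.FN.nul.2.2.2.1
    intro y hy
    exact ih _ hx y (List.mem_cons_of_mem _ hy)

theorem rich_of {D : List ℤ → Prop} {D' : List ℕ → Prop} {M : ℕ} (hM : 0 < M)
    (hD : ∀ s, D s → ∀ x ∈ s, 0 < x) (hDD : ∀ s, D s → D' (sc M s)) (j : ℕ) :
    ∀ s, P D j s → Rich D' j (sc M s) := by
  induction j with
  | zero => intro s h; exact hDD s h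
  | succ j ih =>
    intro s h
    rw [P] at h
    unfold Null at h
    push Not at h
    obtain ⟨ε, hε, h⟩ := h
    rw [Rich]
    have hMR : (0 : ℝ) < M := by exact_mod_cast hM
    refine ⟨ε / M, by positivity, fun L₀ => ?_⟩
    obtain ⟨L, hL, u, hu⟩ := h L₀
    refine ⟨M * L, ?_, M * (u - 1).toNat, ?_⟩
    · calc L₀ ≤ L := hL
        _ = 1 * L := (one_mul L).symm
        _ ≤ M * L := Nat.mul_le_mul_right _ hM
    · have e : ε / M * ((M * L : ℕ) : ℝ) = ε * L := by
        push_cast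
        field_simp
      rw [e]
      refine hu.le.trans ?_
      rw [Nat.cast_le]
      refine Set.ncard_le_ncard_of_injOn (fun n => M * (u + (n : ℤ)).toNat) ?_ ?_ ?_
      · rintro n ⟨h1, h2⟩
        have h3 : 0 < u + (n : ℤ) := P_pos hD j _ h2 _ List.mem_cons_self
        refine ⟨?_, ?_, ?_⟩
        · exact Nat.mul_lt_mul_of_pos_left (by omega) hM
        · show M * (u + (n : ℤ)).toNat ≤ M * (u - 1).toNat + M * L
          rw [← Nat.mul_add]
          exact Nat.mul_le_mul_left _ (by omega)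
        · exact ih _ h2
      · rintro n ⟨h1, h2⟩ n' ⟨h1', h2'⟩ he
        have h3 : 0 < u + (n : ℤ) := P_pos hD j _ h2 _ List.mem_cons_self
        have h4 : 0 < u + (n' : ℤ) := P_pos hD j _ h2' _ List.mem_cons_self
        have h5 := Nat.eq_of_mul_eq_mul_left hM he
        omega
      · exact (Set.finite_le_nat (M * (u - 1).toNat + M * L)).subset fun d hd => hd.2.1

theorem good_mem {E : Set ℤ} : ∀ l : List ℤ, Good E l → ∀ x ∈ l, x ∈ E := by
  intro l
  induction l with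
  | nil => intro _ x hx; simp at hx
  | cons y l ih =>
    intro h x hx
    obtain ⟨h1, h2⟩ := h
    rcases List.mem_cons.1 hx with rfl | hx
    · simpa using h1 [] List.nil_prefix
    · exact ih h2 x hx

theorem good_mono {E E' : Set ℤ} (hEE : E ⊆ E') : ∀ l : List ℤ, Good E l → Good E' l := by
  intro l
  induction l with
  | nil => intro _; trivial
  | cons y l ih =>
    intro h
    exact ⟨fun p hp => hEE (h.1 p hp), ih h.2⟩

/-- the sums of the blocks -/
theorem good_blocks {E : Set ℤ} : ∀ l : List ℤ, Good E l → ∀ p t r : List ℤ, l = p ++ t ++ r →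
    t ≠ [] → t.sum ∈ E := by
  intro l
  induction l with
  | nil =>
    intro _ p t r h ht
    simp at h
    exact (ht h.2.1).elim
  | cons y l ih =>
    intro h p t r he ht
    obtain ⟨h1, h2⟩ := h
    cases p with
    | nil =>
      cases t with
      | nil => exact (ht rfl).elim
      | cons z t =>
        rw [List.nil_append, List.cons_append, List.cons.injEq] at he
        obtain ⟨rfl, rfl⟩ := he
        rw [List.sum_cons]
        exact h1 t (List.prefix_append t r)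
    | cons z p =>
      rw [List.cons_append, List.cons_append, List.cons.injEq] at he
      exact ih h2 p t r he.2 ht

/-- the integer version of the main theorem -/
theorem core (Dn : List ℕ → Prop) (m K M : ℕ) (hm : 1 ≤ m)
    (hnt : ∀ l : List ℤ, l.length = K → (∀ x ∈ l, 0 < x) → ∃ (b : ℤ) (t : List ℤ),
      List.Sublist (b :: t) (pos l) ∧ t.length = m ∧ (∀ x ∈ gaps (b :: t), 0 < x) ∧
      Dn (sc M (gaps (b :: t))))
    (G : Set ℕ) : ∃ (T : Finset Circle) (ρ : ℝ), 0 < ρ ∧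
    Null ({k : ℤ | 0 < k ∧ M * k.toNat ∈ G ∧
      ¬ P (fun s => (∀ x ∈ s, 0 < x) ∧ Dn (sc M s) ∧ Good {k : ℤ | 0 < k ∧ M * k.toNat ∈ G} s)
        (m - 1) [k]} ∩ Bo T ρ) := by
  obtain ⟨D, hD⟩ : ∃ D : List ℤ → Prop, D = fun s => (∀ x ∈ s, 0 < x) ∧ Dn (sc M s) ∧
    Good {k : ℤ | 0 < k ∧ M * k.toNat ∈ G} s := ⟨_, rfl⟩
  rw [← hD]
  obtain ⟨E, hE⟩ : ∃ E : Set ℤ, E = {k : ℤ | 0 < k ∧ M * k.toNat ∈ G ∧ ¬ P D (m - 1) [k]} :=
    ⟨_, rfl⟩
  rw [← hE]
  by_contra hcon
  push Not at hcon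
  obtain ⟨l, hl, hgood, hav⟩ := mainF E hcon (F D m) (F_null D m) K
  have hmem := good_mem l hgood
  obtain ⟨b, t, hsub, hlen, hgp, hpat⟩ := hnt l hl (by
    intro x hx
    have := hmem x hx
    rw [hE] at this
    exact this.1)
  have h1 := mem_A l b t hsub
  have h2 := gaps_length t b
  have h3 := blocks_bad hm (by
    intro y hy
    rw [hE] at hy
    exact hy.2.2) l hgood hav _ h1 (by
      intro h
      have h' : gaps (b :: t) = [] := h
      rw [h', List.length_nil] at h2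
      omega) (le_of_eq (h2.trans hlen))
  have h4 : ¬ P D (m - (gaps (b :: t)).length) (gaps (b :: t)) := h3
  rw [h2, hlen, Nat.sub_self, P, hD] at h4
  apply h4
  refine ⟨hgp, hpat, good_mono ?_ _ (A_good l hgood _ h1)⟩
  rw [hE]
  rintro x ⟨h4, h5, _⟩
  exact ⟨h4, h5⟩

/-- the main theorem -/
theorem main (Dn : List ℕ → Prop) (m K M : ℕ) (hm : 1 ≤ m) (hM : 0 < M)
    (hnt : ∀ l : List ℤ, l.length = K → (∀ x ∈ l, 0 < x) → ∃ (b : ℤ) (t : List ℤ),
      List.Sublist (b :: t) (pos l) ∧ t.length = m ∧ (∀ x ∈ gaps (b :: t), 0 < x) ∧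
      Dn (sc M (gaps (b :: t))))
    (G : Set ℕ) : ∃ (Θ : Finset ℝ) (ρ : ℝ), 0 < ρ ∧ ∀ ε : ℝ, 0 < ε → ∃ L₀ : ℕ, ∀ L : ℕ, L₀ ≤ L →
    ∀ u : ℕ, ({d : ℕ | u < d ∧ d ≤ u + L ∧ (∀ θ ∈ Θ, |(d : ℝ) * θ - round ((d : ℝ) * θ)| < ρ) ∧
      d ∈ G ∧ ¬ Rich (fun s => Dn s ∧ Blocks G s) (m - 1) [d]}.ncard : ℝ) ≤ ε * L := by
  obtain ⟨T, ρ, hρ, hnull⟩ := core Dn m K M hm hnt G
  obtain ⟨Θ, ρ', hρ', h⟩ := transfer hM hρ hnull
  refine ⟨Θ, ρ', hρ', fun ε hε => ?_⟩
  obtain ⟨L₀, h⟩ := h ε hε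
  refine ⟨L₀, fun L hL u => le_trans ?_ (h L hL u)⟩
  rw [Nat.cast_le]
  refine Set.ncard_le_ncard ?_ ((Set.finite_le_nat (u + L)).subset fun d hd => hd.2.1)
  rintro d ⟨h1, h2, h3, h4, h5⟩
  refine ⟨h1, h2, h3, ?_⟩
  rintro k hk rfl
  refine ⟨by exact_mod_cast hk, by simpa using h4, ?_⟩
  intro hP
  apply h5
  have h6 := rich_of (D' := fun s => Dn s ∧ Blocks G s) hM (fun s hs => hs.1) (by
    rintro s ⟨hs1, hs2, hs3⟩
    refine ⟨hs2, ?_⟩
    intro p t r he ht
    -- the block comes from a block of integers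
    obtain ⟨w, t', hw, hwt⟩ : ∃ w t' : List ℤ, s = w ++ t' ∧ sc M w = p ++ t := by
      refine ⟨s.take (p ++ t).length, s.drop (p ++ t).length, (List.take_append_drop _ _).symm, ?_⟩
      have : (sc M s).take (p ++ t).length = p ++ t := by
        rw [he, List.take_left']
        rfl
      rw [← this]
      unfold sc
      rw [List.map_take, List.length_take, List.length_map]
      congr 1
      have h7 : (p ++ t).length ≤ s.length := by
        have := congrArg List.length he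
        rw [List.length_append] at this
        unfold sc at this
        rw [List.length_map] at this
        omega
      omega
    obtain ⟨w₁, w₂, hw12, hw1, hw2⟩ : ∃ w₁ w₂ : List ℤ, w = w₁ ++ w₂ ∧ sc M w₁ = p ∧ sc M w₂ = t := by
      obtain ⟨w₁, w₂, e1, e2, e3⟩ := List.map_eq_append_iff.1 hwt
      exact ⟨w₁, w₂, e1, e2, e3⟩
    have hne : w₂ ≠ [] := by
      rintro rfl
      exact ht hw2.symm
    have h8 := good_blocks s hs3 w₁ w₂ t' (by rw [hw, hw12]) hne
    obtain ⟨h9, h10⟩ := h8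
    have h11 := sc_sum M w₂ fun x hx => hs1 x (by
      rw [hw, hw12]
      simp [hx])
    rw [← hw2]
    have e : (sc M w₂).sum = M * w₂.sum.toNat := by
      have : ((sc M w₂).sum : ℤ) = ((M * w₂.sum.toNat : ℕ) : ℤ) := by
        rw [h11]
        push_cast
        rw [Int.toNat_of_nonneg h9.le]
      exact_mod_cast this
    rw [e]
    exact h10) (m - 1) [(k : ℤ)] hP
  have e : sc M [(k : ℤ)] = [M * k] := by simp [sc]
  rw [e] at h6
  exact h6

/-! ## Reversal -/

theorem gaps_snoc (e c : ℤ) : ∀ u : List ℤ, gaps (u ++ [e, c]) = gaps (u ++ [e]) ++ [c - e]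
  | [] => rfl
  | [a] => rfl
  | a :: b :: u => by
    have h := gaps_snoc e c (b :: u)
    simp only [List.cons_append] at h ⊢
    rw [gaps, gaps, h, List.cons_append]

theorem gaps_reverse (S : ℤ) : ∀ u : List ℤ,
    gaps ((u.map (fun y => S - y)).reverse) = (gaps u).reverse
  | [] => rfl
  | [a] => rfl
  | a :: b :: t => by
    have h := gaps_reverse S (b :: t)
    simp only [List.map_cons, List.reverse_cons] at h ⊢
    rw [List.append_assoc, List.singleton_append, gaps_snoc, h, gaps, List.reverse_cons]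
    congr 2
    ring

theorem pos_snoc (x : ℤ) : ∀ u : List ℤ, pos (u ++ [x]) = pos u ++ [u.sum + x]
  | [] => by simp [pos]
  | y :: u => by
    have h := pos_snoc x u
    rw [List.cons_append, pos, h, pos, List.map_append, List.cons_append, List.sum_cons,
      List.map_singleton, add_assoc]

theorem pos_reverse : ∀ l : List ℤ, pos l.reverse = ((pos l).map (fun y => l.sum - y)).reverse
  | [] => by simp [pos]
  | x :: l => by
    have h := pos_reverse l
    rw [List.reverse_cons, pos_snoc, h, pos, List.map_cons, List.reverse_cons, List.sum_reverse,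
      List.map_map, List.sum_cons]
    congr 1
    · congr 2
      funext y
      simp only [Function.comp]
      ring
    · congr 1
      ring

/-- the reversed form of the number theoretic input -/
theorem nt_rev {Dn : List ℕ → Prop} {m K M : ℕ}
    (hnt : ∀ l : List ℤ, l.length = K → (∀ x ∈ l, 0 < x) → ∃ (b : ℤ) (t : List ℤ),
      List.Sublist (b :: t) (pos l) ∧ t.length = m ∧ (∀ x ∈ gaps (b :: t), 0 < x) ∧
      Dn (sc M (gaps (b :: t)))) :
    ∀ l : List ℤ, l.length = K → (∀ x ∈ l, 0 < x) → ∃ (b : ℤ) (t : List ℤ),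
      List.Sublist (b :: t) (pos l) ∧ t.length = m ∧ (∀ x ∈ gaps (b :: t), 0 < x) ∧
      Dn (sc M (gaps (b :: t))).reverse := by
  intro l hl hpos
  obtain ⟨b, t, h1, h2, h3, h4⟩ := hnt l.reverse (by rw [List.length_reverse]; exact hl)
    fun x hx => hpos x (List.mem_reverse.1 hx)
  rw [pos_reverse] at h1
  have h5 := h1.reverse
  rw [List.reverse_reverse] at h5
  have h6 := h5.map (fun y => l.sum - y)
  rw [List.map_map] at h6
  have e : (pos l).map ((fun y => l.sum - y) ∘ fun y => l.sum - y) = pos l := by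
    have : ((fun y => l.sum - y) ∘ fun y : ℤ => l.sum - y) = id := by
      funext y
      simp
    rw [this, List.map_id]
  rw [e, List.map_reverse] at h6
  have h7 := gaps_reverse l.sum (b :: t)
  obtain ⟨v, hv⟩ : ∃ v, v = ((b :: t).map (fun y => l.sum - y)).reverse := ⟨_, rfl⟩
  rw [← hv] at h6 h7
  have hlen : v.length = m + 1 := by
    rw [hv, List.length_reverse, List.length_map, List.length_cons, h2]
  cases v with
  | nil => simp at hlen
  | cons b' t' =>
    refine ⟨b', t', h6, by simpa using hlen, ?_, ?_⟩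
    · intro x hx
      rw [h7] at hx
      exact h3 x (List.mem_reverse.1 hx)
    · rw [h7]
      have : (sc M (gaps (b :: t)).reverse).reverse = sc M (gaps (b :: t)) := by
        unfold sc
        rw [List.map_reverse, List.reverse_reverse]
      rw [this]
      exact h4

/-- blocks of the reversed list -/
theorem blocks_reverse {G : Set ℕ} {s : List ℕ} (h : Blocks G s) : Blocks G s.reverse := by
  intro p t r he ht
  have h1 := congrArg List.reverse he
  rw [List.reverse_reverse, List.reverse_append, List.reverse_append, ← List.append_assoc] at h1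
  have h2 := h _ _ _ h1 (by simpa using ht)
  rwa [List.sum_reverse] at h2

theorem upperPos_mono {X Y : Set ℕ} (h : X ⊆ Y) (hX : UpperPos X) : UpperPos Y := by
  obtain ⟨δ, hδ, h1⟩ := hX
  refine ⟨δ, hδ, fun L₀ => ?_⟩
  obtain ⟨L, hL, u, h2⟩ := h1 L₀
  refine ⟨L, hL, u, h2.trans ?_⟩
  rw [Nat.cast_le]
  exact Set.ncard_le_ncard (fun d hd => ⟨hd.1, hd.2.1, h hd.2.2⟩)
    ((Set.finite_le_nat (u + L)).subset fun d hd => hd.2.1)

theorem rich_mono {D D' : List ℕ → Prop} (h : ∀ s, D s → D' s) (j : ℕ) :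
    ∀ s, Rich D j s → Rich D' j s := by
  induction j with
  | zero => intro s hs; exact h s hs
  | succ j ih => intro s hs; exact upperPos_mono (fun d hd => ih _ hd) hs

/-- both forms -/
theorem both (hyp : FormsHyp) (q a m : ℕ) (hq : 1 ≤ q) (haq : Nat.Coprime a q) (hm : 1 ≤ m)
    (G : Set ℕ) : ∃ (Θ : Finset ℝ) (ρ : ℝ), 0 < ρ ∧ ∀ ε : ℝ, 0 < ε → ∃ L₀ : ℕ, ∀ L : ℕ, L₀ ≤ L →
    ∀ u : ℕ, ({d : ℕ | u < d ∧ d ≤ u + L ∧ (∀ θ ∈ Θ, |(d : ℝ) * θ - round ((d : ℝ) * θ)| < ρ) ∧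
      d ∈ G ∧ ¬ (Rich (fun s => Pat q a s ∧ Blocks G s) (m - 1) [d] ∧
        Rich (fun s => Pat q a s.reverse ∧ Blocks G s.reverse) (m - 1) [d])}.ncard : ℝ) ≤ ε * L := by
  classical
  obtain ⟨K, hK⟩ : ∃ K : ℕ, 4 * ((m + 1 : ℕ) : ℝ) + 29 / 50 ≤ Real.log (K + 1 : ℕ) := by
    refine ⟨⌈Real.exp (4 * ((m + 1 : ℕ) : ℝ) + 29 / 50)⌉₊, ?_⟩
    rw [Real.le_log_iff_exp_le (by positivity)]
    refine (Nat.le_ceil _).trans ?_
    push_cast
    linarith
  obtain ⟨M, hM⟩ : ∃ M : ℕ, M = q * (K + 1).factorial := ⟨_, rfl⟩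
  have hM0 : 0 < M := by rw [hM]; exact Nat.mul_pos hq (Nat.factorial_pos _)
  have hnt : ∀ l : List ℤ, l.length = K → (∀ x ∈ l, 0 < x) → ∃ (b : ℤ) (t : List ℤ),
      List.Sublist (b :: t) (pos l) ∧ t.length = m ∧ (∀ x ∈ gaps (b :: t), 0 < x) ∧
      Pat q a (sc M (gaps (b :: t))) := by
    rw [hM]
    exact fun l hl hpos => nt hyp q a m hq haq hm K hK l hl hpos
  obtain ⟨Θ₁, ρ₁, hρ₁, h1⟩ := main (Pat q a) m K M hm hM0 hnt G
  obtain ⟨Θ₂, ρ₂, hρ₂, h2⟩ := main (fun s => Pat q a s.reverse) m K M hm hM0 (nt_rev hnt) G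
  refine ⟨Θ₁ ∪ Θ₂, min ρ₁ ρ₂, lt_min hρ₁ hρ₂, fun ε hε => ?_⟩
  obtain ⟨L₁, h1⟩ := h1 (ε / 2) (by positivity)
  obtain ⟨L₂, h2⟩ := h2 (ε / 2) (by positivity)
  refine ⟨max L₁ L₂, fun L hL u => ?_⟩
  have e1 := h1 L ((le_max_left _ _).trans hL) u
  have e2 := h2 L ((le_max_right _ _).trans hL) u
  obtain ⟨X₁, hX₁⟩ : ∃ X : Set ℕ, X = {d : ℕ | u < d ∧ d ≤ u + L ∧
    (∀ θ ∈ Θ₁, |(d : ℝ) * θ - round ((d : ℝ) * θ)| < ρ₁) ∧
      d ∈ G ∧ ¬ Rich (fun s => Pat q a s ∧ Blocks G s) (m - 1) [d]} := ⟨_, rfl⟩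
  obtain ⟨X₂, hX₂⟩ : ∃ X : Set ℕ, X = {d : ℕ | u < d ∧ d ≤ u + L ∧
    (∀ θ ∈ Θ₂, |(d : ℝ) * θ - round ((d : ℝ) * θ)| < ρ₂) ∧
      d ∈ G ∧ ¬ Rich (fun s => Pat q a s.reverse ∧ Blocks G s) (m - 1) [d]} := ⟨_, rfl⟩
  rw [← hX₁] at e1
  rw [← hX₂] at e2
  have f1 : X₁.Finite := by
    rw [hX₁]
    exact (Set.finite_le_nat (u + L)).subset fun d hd => hd.2.1
  have f2 : X₂.Finite := by
    rw [hX₂]
    exact (Set.finite_le_nat (u + L)).subset fun d hd => hd.2.1
  refine le_trans (b := ((X₁ ∪ X₂).ncard : ℝ)) ?_ ?_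
  · rw [Nat.cast_le]
    refine Set.ncard_le_ncard ?_ (f1.union f2)
    rintro d ⟨h3, h4, h5, h6, h7⟩
    rw [not_and_or] at h7
    rcases h7 with h7 | h7
    · left
      rw [hX₁]
      exact ⟨h3, h4, fun θ hθ => (h5 θ (mem_union_left _ hθ)).trans_le (min_le_left _ _), h6, h7⟩
    · right
      rw [hX₂]
      refine ⟨h3, h4, fun θ hθ => (h5 θ (mem_union_right _ hθ)).trans_le (min_le_right _ _), h6, ?_⟩
      intro h8
      exact h7 (rich_mono (fun s hs => ⟨hs.1, blocks_reverse hs.2⟩) _ _ h8)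
  · have e3 : ((X₁ ∪ X₂).ncard : ℝ) ≤ X₁.ncard + X₂.ncard := by
      exact_mod_cast Set.ncard_union_le X₁ X₂
    linarith

end Pool.Agent.TH402.FC
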