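import Mathlib

/-!
# Null sets and linear forms
-/

set_option autoImplicit false
open Finset

namespace Pool.Agent.TH402.FC

/-- a set of natural numbers of upper Banach density zero -/
def NullN (X : Set ℕ) : Prop := ∀ ε : ℝ, 0 < ε → ∃ L₀ : ℕ, ∀ L : ℕ, L₀ ≤ L → ∀ u : ℕ,
  ({d : ℕ | u < d ∧ d ≤ u + L ∧ d ∈ X}.ncard : ℝ) ≤ ε * L

theorem lin_pos {X : Set ℕ} (hX : NullN X) (α : ℤ) (hα : α ≠ 0) (ε : ℝ) (hε : 0 < ε) :
    ∃ L₀ : ℕ, ∀ L : ℕ, L₀ ≤ L → ∀ (u : ℕ) (c : ℤ),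
      ({t : ℕ | u < t ∧ t ≤ u + L ∧ 0 < α * t + c ∧ (α * t + c).toNat ∈ X}.ncard : ℝ) ≤ ε * L := by
  have hα0 : 0 < α.natAbs := Int.natAbs_pos.2 hα
  have hαR : (0 : ℝ) < α.natAbs := by exact_mod_cast hα0
  obtain ⟨L₀, h⟩ := hX (ε / α.natAbs) (by positivity)
  refine ⟨L₀, fun L hL u c => ?_⟩
  obtain ⟨w, hw⟩ : ∃ w : ℕ, ∀ t : ℕ, u < t → t ≤ u + L → 0 < α * t + c →
      (w : ℤ) < α * t + c ∧ α * t + c ≤ w + α.natAbs * L := by
    rcases lt_or_gt_of_ne hα with h0 | h0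
    · refine ⟨(α * (u + L) + c - 1).toNat, fun t h1 h2 h3 => ?_⟩
      have e : (α.natAbs : ℤ) = -α := by omega
      rw [e]
      have h4 : α * ((u : ℤ) + L) ≤ α * t :=
        mul_le_mul_of_nonpos_left (by exact_mod_cast h2) h0.le
      have h5 : α * (t : ℤ) ≤ α * ((u : ℤ) + 1) :=
        mul_le_mul_of_nonpos_left (by exact_mod_cast h1) h0.le
      have h6 : α * ((u : ℤ) + 1) = α * u + α := by ring
      have h7 : α * ((u : ℤ) + L) = α * u + α * L := by ring
      have h8 : -α * (L : ℤ) = -(α * L) := by ring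
      rw [h8]
      constructor <;> omega
    · refine ⟨(α * u + c).toNat, fun t h1 h2 h3 => ?_⟩
      have e : (α.natAbs : ℤ) = α := by omega
      rw [e]
      have h4 : α * (t : ℤ) ≤ α * ((u : ℤ) + L) :=
        mul_le_mul_of_nonneg_left (by exact_mod_cast h2) h0.le
      have h5 : α * ((u : ℤ) + 1) ≤ α * (t : ℤ) :=
        mul_le_mul_of_nonneg_left (by exact_mod_cast h1) h0.le
      have h6 : α * ((u : ℤ) + 1) = α * u + α := by ring
      have h7 : α * ((u : ℤ) + L) = α * u + α * L := by ring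
      constructor <;> omega
  have h1 := h (α.natAbs * L) (by
    calc L₀ ≤ L := hL
      _ = 1 * L := (one_mul L).symm
      _ ≤ _ := Nat.mul_le_mul_right _ hα0) w
  have e : ε / α.natAbs * ((α.natAbs * L : ℕ) : ℝ) = ε * L := by
    push_cast
    field_simp
  rw [e] at h1
  refine le_trans ?_ h1
  rw [Nat.cast_le]
  refine Set.ncard_le_ncard_of_injOn (fun t : ℕ => (α * t + c).toNat) ?_ ?_ ?_
  · rintro t ⟨h2, h3, h4, h5⟩
    obtain ⟨h6, h7⟩ := hw t h2 h3 h4
    refine ⟨?_, ?_, h5⟩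
    · show w < (α * t + c).toNat
      omega
    · show (α * t + c).toNat ≤ w + α.natAbs * L
      have h8 : ((α.natAbs * L : ℕ) : ℤ) = α.natAbs * L := by push_cast; rfl
      omega
  · rintro t ⟨h2, h3, h4, h5⟩ t' ⟨h2', h3', h4', h5'⟩ he
    have he' : (α * t + c).toNat = (α * t' + c).toNat := he
    have h6 : α * (t : ℤ) = α * t' := by omega
    have h7 := mul_left_cancel₀ hα h6
    exact_mod_cast h7
  · exact (Set.finite_le_nat (w + α.natAbs * L)).subset fun d hd => hd.2.1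

theorem lin_one {X : Set ℕ} (hX : NullN X) (α : ℤ) (hα : α ≠ 0) (ε : ℝ) (hε : 0 < ε) :
    ∃ L₀ : ℕ, ∀ L : ℕ, L₀ ≤ L → ∀ (u : ℕ) (c : ℤ),
      ({t : ℕ | u < t ∧ t ≤ u + L ∧ α * t + c ≠ 0 ∧ (α * t + c).natAbs ∈ X}.ncard : ℝ) ≤ ε * L := by
  obtain ⟨L₁, h1⟩ := lin_pos hX α hα (ε / 2) (by positivity)
  obtain ⟨L₂, h2⟩ := lin_pos hX (-α) (neg_ne_zero.2 hα) (ε / 2) (by positivity)
  refine ⟨max L₁ L₂, fun L hL u c => ?_⟩
  have e1 := h1 L ((le_max_left _ _).trans hL) u c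
  have e2 := h2 L ((le_max_right _ _).trans hL) u (-c)
  have f : ∀ s : Set ℕ, s ⊆ Set.Iic (u + L) → s.Finite := fun s hs => (Set.finite_Iic _).subset hs
  have e3 := Set.ncard_union_le
    {t : ℕ | u < t ∧ t ≤ u + L ∧ 0 < α * t + c ∧ (α * t + c).toNat ∈ X}
    {t : ℕ | u < t ∧ t ≤ u + L ∧ 0 < -α * t + -c ∧ (-α * t + -c).toNat ∈ X}
  have e4 : {t : ℕ | u < t ∧ t ≤ u + L ∧ α * t + c ≠ 0 ∧ (α * t + c).natAbs ∈ X}.ncard ≤
      ({t : ℕ | u < t ∧ t ≤ u + L ∧ 0 < α * t + c ∧ (α * t + c).toNat ∈ X} ∪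
      {t : ℕ | u < t ∧ t ≤ u + L ∧ 0 < -α * t + -c ∧ (-α * t + -c).toNat ∈ X}).ncard := by
    refine Set.ncard_le_ncard ?_ (f _ ?_)
    · rintro t ⟨h3, h4, h5, h6⟩
      rcases lt_or_gt_of_ne h5 with h7 | h7
      · right
        have e : -α * (t : ℤ) + -c = -(α * t + c) := by ring
        refine ⟨h3, h4, by rw [e]; omega, ?_⟩
        rw [e]
        have : (-(α * (t : ℤ) + c)).toNat = (α * (t : ℤ) + c).natAbs := by omega
        rw [this]
        exact h6
      · left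
        refine ⟨h3, h4, h7, ?_⟩
        have : (α * (t : ℤ) + c).toNat = (α * (t : ℤ) + c).natAbs := by omega
        rw [this]
        exact h6
    · rintro t (ht | ht)
      · exact ht.2.1
      · exact ht.2.1
  have e5 : ({t : ℕ | u < t ∧ t ≤ u + L ∧ α * t + c ≠ 0 ∧ (α * t + c).natAbs ∈ X}.ncard : ℝ) ≤
      ({t : ℕ | u < t ∧ t ≤ u + L ∧ 0 < α * t + c ∧ (α * t + c).toNat ∈ X}.ncard : ℝ) +
      ({t : ℕ | u < t ∧ t ≤ u + L ∧ 0 < -α * t + -c ∧ (-α * t + -c).toNat ∈ X}.ncard : ℝ) := by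
    exact_mod_cast e4.trans e3
  linarith

/-- the value of the linear form `ψ` -/
def val {r : ℕ} (ψ : Fin r → ℤ) (x : Fin r → ℕ) : ℤ := ∑ i, ψ i * (x i : ℤ)

open Classical in
theorem lin_form {X : Set ℕ} (hX : NullN X) {r : ℕ} (ψ : Fin r → ℤ) (hψ : ψ ≠ 0) (ε : ℝ)
    (hε : 0 < ε) : ∃ L₀ : ℕ, ∀ L : ℕ, L₀ ≤ L → ∀ u : Fin r → ℕ,
      (((Fintype.piFinset fun i => Ioc (u i) (u i + L)).filter
        (fun x => val ψ x ≠ 0 ∧ (val ψ x).natAbs ∈ X)).card : ℝ) ≤ ε * L ^ r := by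
  obtain ⟨k, hk⟩ : ∃ k, ψ k ≠ 0 := by
    by_contra hcon
    push Not at hcon
    exact hψ (funext hcon)
  obtain ⟨L₀, h⟩ := lin_one hX (ψ k) hk ε hε
  refine ⟨L₀, fun L hL u => ?_⟩
  set B := (Fintype.piFinset fun i => Ioc (u i) (u i + L)).filter
        (fun x => val ψ x ≠ 0 ∧ (val ψ x).natAbs ∈ X) with hB
  set f : (Fin r → ℕ) → (Fin r → ℕ) := fun x => Function.update x k (u k + 1) with hf
  set n : ℕ := ⌊ε * L⌋₊ with hn
  have hn1 : (n : ℝ) ≤ ε * L := Nat.floor_le (by positivity)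
  have hfib : ∀ y ∈ B.image f, (B.filter fun x => f x = y).card ≤ n := by
    intro y _
    apply Nat.le_floor
    refine le_trans ?_ (h L hL (u k) (∑ i ∈ univ.erase k, ψ i * (y i : ℤ)))
    rw [← Set.ncard_coe_finset, Nat.cast_le]
    refine Set.ncard_le_ncard_of_injOn (fun x => x k) ?_ ?_ ?_
    · intro x hx
      rw [mem_coe, mem_filter, hB, mem_filter, Fintype.mem_piFinset] at hx
      obtain ⟨⟨h1, h2, h3⟩, rfl⟩ := hx
      have h4 := h1 k
      rw [mem_Ioc] at h4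
      have e : ψ k * ((x k : ℕ) : ℤ) + ∑ i ∈ univ.erase k, ψ i * ((f x i : ℕ) : ℤ) = val ψ x := by
        unfold val
        rw [← add_sum_erase univ (fun i => ψ i * (x i : ℤ)) (mem_univ k)]
        congr 1
        apply sum_congr rfl
        intro i hi
        rw [mem_erase] at hi
        rw [hf]
        simp only
        rw [Function.update_of_ne hi.1]
      refine ⟨h4.1, h4.2, ?_, ?_⟩
      · rw [e]; exact h2
      · rw [e]; exact h3
    · intro x hx x' hx' he
      rw [mem_coe, mem_filter] at hx hx'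
      have h1 : f x = f x' := hx.2.trans hx'.2.symm
      funext i
      by_cases hi : i = k
      · rw [hi]; exact he
      · have := congrFun h1 i
        rw [hf] at this
        simp only at this
        rwa [Function.update_of_ne hi, Function.update_of_ne hi] at this
    · exact (Set.finite_Iic (u k + L)).subset fun t ht => ht.2.1
  have h1 := card_le_mul_card_image B n hfib
  have h2 : (B.image f).card ≤ L ^ (r - 1) := by
    have hsub : B.image f ⊆ Fintype.piFinset (fun i => if i = k then {u k + 1} else Ioc (u i) (u i + L)) := by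
      intro y hy
      rw [mem_image] at hy
      obtain ⟨x, hx, rfl⟩ := hy
      rw [hB, mem_filter, Fintype.mem_piFinset] at hx
      rw [Fintype.mem_piFinset]
      intro i
      by_cases hi : i = k
      · subst hi
        simp [hf]
      · rw [if_neg hi, hf]
        simp only
        rw [Function.update_of_ne hi]
        exact hx.1 i
    refine (card_le_card hsub).trans ?_
    rw [Fintype.card_piFinset, ← mul_prod_erase univ _ (mem_univ k)]
    rw [if_pos rfl, card_singleton, one_mul]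
    rw [prod_congr rfl (g := fun _ => L) (by
      intro i hi
      rw [mem_erase] at hi
      rw [if_neg hi.1, Nat.card_Ioc]
      omega)]
    rw [prod_const, card_erase_of_mem (mem_univ k), card_univ, Fintype.card_fin]
  have hr : 1 ≤ r := by
    have := k.pos
    omega
  calc (B.card : ℝ) ≤ ((n * (B.image f).card : ℕ) : ℝ) := by exact_mod_cast h1
    _ = (n : ℝ) * ((B.image f).card : ℝ) := by push_cast; rfl
    _ ≤ (ε * L) * (L : ℝ) ^ (r - 1) := by
        apply mul_le_mul hn1 _ (by positivity) (by positivity)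
        exact_mod_cast h2
    _ = ε * L ^ r := by
        rw [mul_assoc, ← pow_succ']
        congr 2
        omega

/-- linear forms map products of Bohr neighbourhoods of zero to Bohr neighbourhoods of zero -/
theorem lin_bohr {r : ℕ} (ψ : Fin r → ℤ) (C : ℕ) (hC : ∑ i, (ψ i).natAbs ≤ C) (Θ : Finset ℝ) (ρ : ℝ)
    (hρ : 0 < ρ) (x : Fin r → ℕ)
    (hx : ∀ i, ∀ θ ∈ Θ, |(x i : ℝ) * θ - round ((x i : ℝ) * θ)| < ρ / (C + 1)) :
    ∀ θ ∈ Θ, |(((val ψ x).natAbs : ℕ) : ℝ) * θ - round ((((val ψ x).natAbs : ℕ) : ℝ) * θ)| < ρ := by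
  intro θ hθ
  obtain ⟨w, hw⟩ : ∃ w : ℤ, w = ∑ i, ψ i * round ((x i : ℝ) * θ) := ⟨_, rfl⟩
  have h1 : |((val ψ x : ℤ) : ℝ) * θ - w| < ρ := by
    have e : ((val ψ x : ℤ) : ℝ) * θ - w = ∑ i, (ψ i : ℝ) * ((x i : ℝ) * θ - round ((x i : ℝ) * θ)) := by
      rw [hw]
      unfold val
      push_cast
      rw [sum_mul, ← sum_sub_distrib]
      apply sum_congr rfl
      intro i _
      ring
    rw [e]
    have hCR : (0 : ℝ) < C + 1 := by positivity
    calc |∑ i, (ψ i : ℝ) * ((x i : ℝ) * θ - round ((x i : ℝ) * θ))|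
        ≤ ∑ i, |(ψ i : ℝ) * ((x i : ℝ) * θ - round ((x i : ℝ) * θ))| := abs_sum_le_sum_abs _ _
      _ ≤ ∑ i, ((ψ i).natAbs : ℝ) * (ρ / (C + 1)) := by
          apply sum_le_sum
          intro i _
          rw [abs_mul]
          have e1 : |(ψ i : ℝ)| = ((ψ i).natAbs : ℝ) := by
            rw [Nat.cast_natAbs]
            push_cast
            rfl
          rw [e1]
          exact mul_le_mul_of_nonneg_left (hx i θ hθ).le (by positivity)
      _ = ((∑ i, (ψ i).natAbs : ℕ) : ℝ) * (ρ / (C + 1)) := by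
          rw [← sum_mul]
          push_cast
          rfl
      _ ≤ (C : ℝ) * (ρ / (C + 1)) := by
          apply mul_le_mul_of_nonneg_right _ (by positivity)
          exact_mod_cast hC
      _ < ρ := by
          rw [mul_div_assoc', div_lt_iff₀ hCR]
          nlinarith
  rcases Int.natAbs_eq (val ψ x) with h2 | h2
  · have e : (((val ψ x).natAbs : ℕ) : ℝ) = ((val ψ x : ℤ) : ℝ) := by
      rw [← Int.cast_natCast, ← h2]
    rw [e]
    exact (round_le _ w).trans_lt h1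
  · have e : (((val ψ x).natAbs : ℕ) : ℝ) = -((val ψ x : ℤ) : ℝ) := by
      have h3 : (((val ψ x).natAbs : ℕ) : ℤ) = -(val ψ x) := by omega
      rw [← Int.cast_natCast, h3, Int.cast_neg]
    rw [e]
    refine (round_le _ (-w)).trans_lt ?_
    have e2 : -((val ψ x : ℤ) : ℝ) * θ - ((-w : ℤ) : ℝ) = -(((val ψ x : ℤ) : ℝ) * θ - w) := by
      push_cast
      ring
    rw [e2, abs_neg]
    exact h1

end Pool.Agent.TH402.FC
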