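import Pool.Agent.TH402.FC.Defs
import Pool.Agent.TH402.FC.Blk
import Pool.Agent.TH779.Shat.Patterns

/-!
# Patterns of consecutive primes in the set of partial sums
-/

set_option autoImplicit false
open Filter Topology Finset

namespace Pool.Agent.TH402.FC

open Pool.Agent.W27.FB Pool.Agent.TH779.Shat

/-- scaling -/
def sc (M : ℕ) (s : List ℤ) : List ℕ := s.map (fun x => M * x.toNat)

theorem sc_sum (M : ℕ) : ∀ s : List ℤ, (∀ x ∈ s, 0 < x) → ((sc M s).sum : ℤ) = M * s.sum := by
  intro s
  induction s with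
  | nil => intro _; simp [sc]
  | cons x s ih =>
    intro h
    have h1 := ih fun y hy => h y (List.mem_cons_of_mem _ hy)
    have h2 := h x List.mem_cons_self
    have e : sc M (x :: s) = M * x.toNat :: sc M s := rfl
    rw [e, List.sum_cons, List.sum_cons, Nat.cast_add, Nat.cast_mul, h1, Int.toNat_of_nonneg h2.le]
    ring

theorem sc_prefix (M : ℕ) (s : List ℤ) (p : List ℕ) :
    p <+: sc M s ↔ ∃ p' : List ℤ, p' <+: s ∧ p = sc M p' := by
  constructor
  · rintro ⟨r, hr⟩
    refine ⟨s.take p.length, List.take_prefix _ _, ?_⟩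
    have h1 : (sc M s).take p.length = p := by
      rw [← hr, List.take_left']
      rfl
    rw [← h1]
    unfold sc
    rw [List.map_take, List.length_take, List.length_map]
    congr 1
    have h2 : p.length ≤ s.length := by
      have := congrArg List.length hr
      rw [List.length_append] at this
      unfold sc at this
      rw [List.length_map] at this
      omega
    omega
  · rintro ⟨p', ⟨r, rfl⟩, rfl⟩
    exact ⟨sc M r, by simp [sc]⟩

theorem gaps_prefix (t : List ℤ) : ∀ (b z : ℤ),
    (∃ p : List ℤ, p <+: gaps (b :: t) ∧ z = p.sum) ↔ ∃ c ∈ b :: t, z = c - b := by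
  induction t with
  | nil =>
    intro b z
    constructor
    · rintro ⟨p, hp, rfl⟩
      rw [gaps, List.prefix_nil] at hp
      · subst hp
        exact ⟨b, by simp, by simp⟩
      · intros; simp_all
    · rintro ⟨c, hc, rfl⟩
      rw [List.mem_singleton] at hc
      subst hc
      exact ⟨[], List.nil_prefix, by simp⟩
  | cons c t ih =>
    intro b z
    rw [gaps]
    constructor
    · rintro ⟨p, hp, rfl⟩
      rcases List.prefix_cons_iff.1 hp with rfl | ⟨p', rfl, hp'⟩
      · exact ⟨b, by simp, by simp⟩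
      · obtain ⟨c', hc', h⟩ := (ih c p'.sum).1 ⟨p', hp', rfl⟩
        refine ⟨c', List.mem_cons_of_mem _ hc', ?_⟩
        rw [List.sum_cons, h]
        ring
    · rintro ⟨c', hc', rfl⟩
      rcases List.mem_cons.1 hc' with rfl | hc'
      · exact ⟨[], List.nil_prefix, by simp⟩
      · obtain ⟨p, hp, h⟩ := (ih c (c' - c)).2 ⟨c', hc', rfl⟩
        refine ⟨(c - b) :: p, by simpa using hp, ?_⟩
        rw [List.sum_cons, ← h]
        ring

theorem gaps_pos (t : List ℤ) : ∀ b : ℤ, (b :: t).Pairwise (· < ·) → ∀ x ∈ gaps (b :: t), 0 < x := by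
  induction t with
  | nil => intro b _ x hx; simp [gaps] at hx
  | cons c t ih =>
    intro b h x hx
    rw [gaps, List.mem_cons] at hx
    rw [List.pairwise_cons] at h
    rcases hx with rfl | hx
    · have := h.1 c List.mem_cons_self
      omega
    · exact ih c h.2 x hx

theorem gaps_length (t : List ℤ) : ∀ b : ℤ, (gaps (b :: t)).length = t.length := by
  induction t with
  | nil => intro b; simp [gaps]
  | cons c t ih => intro b; rw [gaps, List.length_cons, ih c, List.length_cons]

theorem pos_nonneg (l : List ℤ) : (∀ x ∈ l, 0 < x) → ∀ y ∈ pos l, 0 ≤ y := by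
  induction l with
  | nil => intro _ y hy; simp [pos] at hy; omega
  | cons x l ih =>
    intro h y hy
    rw [pos, List.mem_cons, List.mem_map] at hy
    rcases hy with rfl | ⟨z, hz, rfl⟩
    · exact le_rfl
    · have h1 := ih (fun w hw => h w (List.mem_cons_of_mem _ hw)) z hz
      have h2 := h x List.mem_cons_self
      omega

theorem pos_sorted (l : List ℤ) : (∀ x ∈ l, 0 < x) → (pos l).Pairwise (· < ·) := by
  induction l with
  | nil => intro _; simp [pos]
  | cons x l ih =>
    intro h
    have h0 : ∀ w ∈ l, 0 < w := fun w hw => h w (List.mem_cons_of_mem _ hw)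
    rw [pos, List.pairwise_cons]
    refine ⟨?_, ?_⟩
    · intro y hy
      rw [List.mem_map] at hy
      obtain ⟨z, hz, rfl⟩ := hy
      have h1 := pos_nonneg l h0 z hz
      have h2 := h x List.mem_cons_self
      omega
    · rw [List.pairwise_map]
      exact (ih h0).imp fun hab => by omega

theorem pos_length (l : List ℤ) : (pos l).length = l.length + 1 := by
  induction l with
  | nil => rfl
  | cons x l ih => rw [pos, List.length_cons, List.length_map, ih, List.length_cons]

theorem adm_of (S : Finset ℕ) (K M : ℕ) (hS : S.card ≤ K) (hM : K.factorial ∣ M)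
    (hSM : ∀ h ∈ S, M ∣ h) (p : ℕ) (hp : p.Prime) : ∃ r : ℕ, ∀ h ∈ S, ¬ p ∣ r + h := by
  by_cases hpK : p ≤ K
  · refine ⟨1, fun h hh hd => ?_⟩
    have h1 : p ∣ h := ((Nat.dvd_factorial hp.pos hpK).trans hM).trans (hSM h hh)
    have h2 : p ∣ 1 := (Nat.dvd_add_left h1).1 hd
    exact hp.one_lt.ne' (Nat.dvd_one.1 h2)
  · by_contra hcon
    push Not at hcon
    choose f hf hf2 using hcon
    have h1 : (range p).card ≤ S.card := by
      refine card_le_card_of_injOn f (fun r _ => hf r) ?_
      intro r hr r' hr' he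
      rw [mem_coe, mem_range] at hr hr'
      have h2 := hf2 r
      have h3 := hf2 r'
      have he' : f r = f r' := he
      rw [he'] at h2
      have h4 : r + f r' ≡ r' + f r' [MOD p] :=
        ((Nat.modEq_zero_iff_dvd.2 h2)).trans (Nat.modEq_zero_iff_dvd.2 h3).symm
      have h5 := Nat.ModEq.add_right_cancel' _ h4
      exact Nat.ModEq.eq_of_lt_of_lt h5 hr hr'
    rw [card_range] at h1
    omega

/-- in the set of partial sums of every long list of positive integers there is a pattern of `m + 1`
consecutive primes -/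
theorem nt (hyp : FormsHyp) (q a m : ℕ) (hq : 1 ≤ q) (haq : Nat.Coprime a q) (hm : 1 ≤ m) (K : ℕ)
    (hK : 4 * ((m + 1 : ℕ) : ℝ) + 29 / 50 ≤ Real.log (K + 1 : ℕ)) (l : List ℤ) (hl : l.length = K)
    (hpos : ∀ x ∈ l, 0 < x) :
    ∃ (b : ℤ) (t : List ℤ), List.Sublist (b :: t) (pos l) ∧ t.length = m ∧
      (∀ x ∈ gaps (b :: t), 0 < x) ∧ Pat q a (sc (q * (K + 1).factorial) (gaps (b :: t))) := by
  classical
  obtain ⟨M, hM⟩ : ∃ M : ℕ, M = (K + 1).factorial := ⟨_, rfl⟩
  have hM0 : 0 < M := by rw [hM]; exact Nat.factorial_pos _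
  rw [← hM]
  set f : ℤ → ℕ := fun b => M * b.toNat with hf
  have hnn := pos_nonneg l hpos
  have hso := pos_sorted l hpos
  have hfinj : ∀ x ∈ pos l, ∀ y ∈ pos l, f x = f y → x = y := by
    intro x hx y hy h
    have h1 := Nat.eq_of_mul_eq_mul_left hM0 h
    have h2 := hnn x hx
    have h3 := hnn y hy
    omega
  have hfmono : ∀ x ∈ pos l, ∀ y ∈ pos l, x < y → f x < f y := by
    intro x hx y hy h
    have h2 := hnn x hx
    have h3 := hnn y hy
    exact Nat.mul_lt_mul_of_pos_left (by omega) hM0
  set S : Finset ℕ := (pos l).toFinset.image f with hS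
  have hnd : (pos l).Nodup := hso.imp fun h => ne_of_lt h
  have hScard : S.card = K + 1 := by
    rw [hS, card_image_of_injOn, List.toFinset_card_of_nodup hnd, pos_length, hl]
    intro x hx y hy h
    exact hfinj x (by simpa using hx) y (by simpa using hy) h
  obtain ⟨B, hB⟩ : ∃ B, ∀ h ∈ S, h ≤ B := ⟨S.sup id, fun h hh => le_sup (f := id) hh⟩
  have hadm := adm_of S (K + 1) M hScard.le (by rw [hM]) (by
    intro h hh
    rw [hS, mem_image] at hh
    obtain ⟨b, _, rfl⟩ := hh
    exact dvd_mul_right _ _)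
  have hone := fun (η : ℝ) (hη : 0 < η) => one_pattern hyp q a B hq haq (m + 1) (by omega) S hB hadm
    (by rw [hScard]; exact hK) η hη
  let hfin : Fintype {R : Finset ℕ // R ∈ S.powersetCard (m + 1)} :=
    Fintype.ofFinite {R : Finset ℕ // R ∈ S.powersetCard (m + 1)}
  obtain ⟨⟨R, hR⟩, hfreq⟩ := one_object
    (P := {R : Finset ℕ // R ∈ S.powersetCard (m + 1)})
    (fun R η x => x ^ (1 - η) ≤ (cnt q a (norm R.1) x : ℝ))
    (by
      intro R η η' x hx hηη h
      exact (Real.rpow_le_rpow_of_exponent_le hx (by linarith)).trans h)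
    (by
      intro η hη
      refine (hone η hη).mono ?_
      rintro x ⟨R, h1, h2, h3⟩
      exact ⟨⟨R, mem_powersetCard.2 ⟨h1, h2⟩⟩, h3⟩)
  rw [mem_powersetCard] at hR
  obtain ⟨hRS, hRc⟩ := hR
  obtain ⟨t₀, ht₀⟩ : ∃ t₀, t₀ = (pos l).filter (fun b => decide (f b ∈ R)) := ⟨_, rfl⟩
  have hsub : List.Sublist t₀ (pos l) := by rw [ht₀]; exact List.filter_sublist
  have hmem : ∀ c, c ∈ t₀ ↔ c ∈ pos l ∧ f c ∈ R := by
    intro c
    rw [ht₀, List.mem_filter, decide_eq_true_eq]
  have himg : t₀.toFinset.image f = R := by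
    ext h
    rw [mem_image]
    constructor
    · rintro ⟨c, hc, rfl⟩
      rw [List.mem_toFinset, hmem] at hc
      exact hc.2
    · intro hh
      have h1 := hRS hh
      rw [hS, mem_image] at h1
      obtain ⟨c, hc, rfl⟩ := h1
      rw [List.mem_toFinset] at hc
      exact ⟨c, by rw [List.mem_toFinset, hmem]; exact ⟨hc, hh⟩, rfl⟩
  have hlen : t₀.length = m + 1 := by
    rw [← hRc, ← himg, card_image_of_injOn, List.toFinset_card_of_nodup (hnd.sublist hsub)]
    intro x hx y hy h
    exact hfinj x ((hmem x).1 (by simpa using hx)).1 y ((hmem y).1 (by simpa using hy)).1 h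
  cases t₀ with
  | nil => simp at hlen
  | cons b t =>
    have hsot : (b :: t).Pairwise (· < ·) := hso.sublist hsub
    have hgp := gaps_pos t b hsot
    refine ⟨b, t, hsub, by simpa using hlen, hgp, ?_⟩
    have hbmin : ∀ c ∈ b :: t, b ≤ c := by
      intro c hc
      rcases List.mem_cons.1 hc with rfl | hc
      · exact le_rfl
      · exact ((List.pairwise_cons.1 hsot).1 c hc).le
    have hposc : ∀ c ∈ b :: t, c ∈ pos l := fun c hc => ((hmem c).1 hc).1
    have hbm := hposc b List.mem_cons_self
    -- the least element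
    have hinf : sInf (R : Set ℕ) = f b := by
      have h1 : f b ∈ R := ((hmem b).1 List.mem_cons_self).2
      apply le_antisymm (sInf_le_of h1)
      have h2 := sInf_mem_of (R := R) ⟨_, h1⟩
      rw [← himg, mem_image] at h2
      obtain ⟨c, hc, h3⟩ := h2
      rw [himg] at h3
      rw [List.mem_toFinset] at hc
      rw [← h3]
      have h4 := hbmin c hc
      have h5 := hnn b hbm
      exact Nat.mul_le_mul_left _ (by omega)
    have hnorm : ∀ h : ℕ, h ∈ norm R ↔ ∃ c ∈ b :: t, h = M * (c - b).toNat := by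
      intro h
      have e : ∀ c ∈ b :: t, f c - f b = M * (c - b).toNat := by
        intro c hc
        have h4 := hbmin c hc
        have h5 := hnn b hbm
        simp only [hf]
        rw [← Nat.mul_sub]
        congr 1
        omega
      unfold TH779.Shat.norm
      rw [mem_image, hinf]
      constructor
      · rintro ⟨r, hr, rfl⟩
        rw [← himg, mem_image] at hr
        obtain ⟨c, hc, rfl⟩ := hr
        rw [List.mem_toFinset] at hc
        exact ⟨c, hc, e c hc⟩
      · rintro ⟨c, hc, rfl⟩
        exact ⟨f c, ((hmem c).1 hc).2, e c hc⟩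
    -- the initial segments
    have hpre : ∀ y : ℕ, (∃ p : List ℕ, p <+: sc (q * M) (gaps (b :: t)) ∧ y = p.sum) ↔
        ∃ h ∈ norm R, y = q * h := by
      intro y
      constructor
      · rintro ⟨p, hp, rfl⟩
        obtain ⟨p', hp', rfl⟩ := (sc_prefix _ _ _).1 hp
        obtain ⟨c, hc, h1⟩ := (gaps_prefix t b p'.sum).1 ⟨p', hp', rfl⟩
        refine ⟨M * (c - b).toNat, (hnorm _).2 ⟨c, hc, rfl⟩, ?_⟩
        have h2 := sc_sum (q * M) p' fun x hx => hgp x (hp'.subset hx)
        have h3 := hbmin c hc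
        have h4 : ((sc (q * M) p').sum : ℤ) = ((q * (M * (c - b).toNat) : ℕ) : ℤ) := by
          rw [h2, h1]
          push_cast
          rw [Int.toNat_of_nonneg (by omega)]
          ring
        exact_mod_cast h4
      · rintro ⟨h, hh, rfl⟩
        obtain ⟨c, hc, rfl⟩ := (hnorm h).1 hh
        obtain ⟨p', hp', h1⟩ := (gaps_prefix t b (c - b)).2 ⟨c, hc, rfl⟩
        refine ⟨sc (q * M) p', (sc_prefix _ _ _).2 ⟨p', hp', rfl⟩, ?_⟩
        have h2 := sc_sum (q * M) p' fun x hx => hgp x (hp'.subset hx)
        have h3 := hbmin c hc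
        have h4 : ((sc (q * M) p').sum : ℤ) = ((q * (M * (c - b).toNat) : ℕ) : ℤ) := by
          rw [h2, ← h1]
          push_cast
          rw [Int.toNat_of_nonneg (by omega)]
          ring
        exact_mod_cast h4.symm
    intro η hη
    refine (hfreq η hη).mono fun x hx => hx.trans ?_
    unfold cnt
    rw [Nat.cast_le]
    refine Set.ncard_le_ncard ?_ ((Set.finite_Iic ⌊x⌋₊).subset ?_)
    · rintro n ⟨h1, h2, h3, h4⟩
      refine ⟨h1, ?_, ?_⟩
      · intro p hp
        obtain ⟨h, hh, h5⟩ := (hpre p.sum).1 ⟨p, hp, rfl⟩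
        rw [h5]
        have h6 : q * h ≡ 0 [MOD q] := Nat.modEq_zero_iff_dvd.2 (dvd_mul_right _ _)
        simpa using h2.add h6
      · intro y hy
        rw [hpre]
        constructor
        · intro hp
          refine h4 y hp ?_
          obtain ⟨h, hh, h5⟩ := (hpre (sc (q * M) (gaps (b :: t))).sum).1 ⟨_, List.prefix_rfl, rfl⟩
          exact ⟨h, hh, by rw [← h5]; exact hy⟩
        · rintro ⟨h, hh, rfl⟩
          exact h3 h hh
    · rintro n ⟨h1, -⟩
      rw [Set.mem_Iic]
      exact Nat.le_floor h1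

end Pool.Agent.TH402.FC
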